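import Pool.Agent.W870.Pg.Fin

/-!
Self-avoiding polygons on the square lattice, with mean width `W_j` at perimeter `2j`: the sum of
`(W_j + j^(1/2)) p_{2j} μ^(-2j)` over `2 ≤ j ≤ n` is at most `K (log n)^5`.
-/

namespace Pool.Agent.Results.MP_376faf_co.PolygonSumBound

open Filter Topology

/-- the number of `n`-step self-avoiding walks on `ℤ²` started at the origin -/
noncomputable def c (n : ℕ) : ℕ :=
  Nat.card {f : Fin (n + 1) → ℤ × ℤ // f 0 = 0 ∧ Function.Injective f ∧
    ∀ i : Fin n, |(f i.succ).1 - (f i.castSucc).1| + |(f i.succ).2 - (f i.castSucc).2| = 1}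

/-- a closed nearest-neighbour loop on `ℤ²` with `m` steps, rooted at the origin and oriented,
that visits no vertex twice -/
def IsLoop (m : ℕ) (f : ZMod m → ℤ × ℤ) : Prop :=
  f 0 = 0 ∧ Function.Injective f ∧
    ∀ i : ZMod m, |(f (i + 1)).1 - (f i).1| + |(f (i + 1)).2 - (f i).2| = 1

/-- the number of self-avoiding polygons of perimeter `2n` on `ℤ²` up to translation: the number
of rooted oriented loops with `2n` steps, divided by `4n` (the choices of the starting point and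
of the orientation) -/
noncomputable def p (n : ℕ) : ℝ :=
  (Nat.card {f : ZMod (2 * n) → ℤ × ℤ // IsLoop (2 * n) f} : ℝ) / (4 * (n : ℝ))

/-- the width (horizontal extent) of a loop -/
noncomputable def width (m : ℕ) (f : ZMod m → ℤ × ℤ) : ℕ :=
  sSup {w : ℕ | ∃ i j, w = ((f i).1 - (f j).1).natAbs}

/-- the mean width `W_n` of the self-avoiding polygons of perimeter `2 n`: the average of the
width over the rooted oriented polygons. -/
noncomputable def W (n : ℕ) : ℝ :=
  (∑ᶠ f ∈ {f : ZMod (2 * n) → ℤ × ℤ | IsLoop (2 * n) f}, (width (2 * n) f : ℝ)) /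
    ({f : ZMod (2 * n) → ℤ × ℤ | IsLoop (2 * n) f}.ncard : ℝ)

lemma c_eq (n : ℕ) : (c n : ℝ) = H981.cr' n := by
  rw [H981.cr'_eq]
  unfold c H981.C H981.IsSAW
  congr 1
  apply Nat.card_congr
  apply Equiv.subtypeEquivRight
  intro f
  constructor
  · rintro ⟨h0, h1, h2⟩
    exact ⟨h0, h2, h1⟩
  · rintro ⟨h0, h2, h1⟩
    exact ⟨h0, h1, h2⟩

lemma p_eq (n : ℕ) : p n = H981.PP n := rfl

lemma W_eq {n : ℕ} (hn : 2 ≤ n) : W n = Pool.Agent.W870.Pg.MW n := Pool.Agent.W870.Pg.MW_eq hn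

/-- **Theorem.** Let `μ` be the connective constant of `ℤ²`, `p_{2j}` the number of self-avoiding
polygons of perimeter `2j` up to translation and `W_j` their mean width.  There is a constant `K`
such that the sum of `(W_j + j^(1/2)) p_{2j} μ^(-2j)` over `2 ≤ j ≤ n` is at most `K (log n)^5`
for all `n ≥ 2`. -/
theorem result : ∃ μ : ℝ, 0 < μ ∧
    Tendsto (fun n : ℕ => (c n : ℝ) ^ ((1:ℝ) / (n : ℝ))) atTop (𝓝 μ) ∧
    ∃ K : ℝ, ∀ n : ℕ, 2 ≤ n →
      ∑ j ∈ Finset.Icc 2 n, (W j + Real.sqrt j) * p j / μ ^ (2 * j) ≤ K * Real.log n ^ 5 := by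
  refine ⟨H981.mu, H981.mu_pos, ?_, ?_⟩
  · simp only [c_eq]
    exact H981.tendsto_root
  · obtain ⟨K, h⟩ := Pool.Agent.W870.Pg.sum_final
    refine ⟨K, fun n hn => ?_⟩
    refine le_trans (le_of_eq ?_) (h n hn)
    apply Finset.sum_congr rfl
    intro j hj
    rw [W_eq (Finset.mem_Icc.mp hj).1, p_eq]

end Pool.Agent.Results.MP_376faf_co.PolygonSumBound
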