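import Pool.Agent.W387.Q.Hyp
import Pool.Agent.W387.Q.Ex3

/-!
Self-avoiding polygons on the square lattice: `|p_{2n+2}/p_{2n} - μ²| ≤ K ((log n)^3 / n)^(1/2)`, and
reduction of the conjectured asymptotics to sparse sequences.
-/

set_option linter.unusedSectionVars false

namespace Pool.Agent.Results.MP_376faf_co.RatioRateLogThree

open Filter Topology

/-- `ω` is a self-avoiding walk with `n` steps on `ℤ²`, started at the origin. -/
def IsSAW (n : ℕ) (ω : Fin (n + 1) → ℤ × ℤ) : Prop :=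
  ω 0 = (0, 0) ∧
  (∀ i : Fin n, |(ω i.succ).1 - (ω i.castSucc).1| + |(ω i.succ).2 - (ω i.castSucc).2| = 1) ∧
  Function.Injective ω

/-- the number of `n`-step self-avoiding walks on `ℤ²` started at the origin -/
noncomputable def C (n : ℕ) : ℕ := Nat.card {ω : Fin (n + 1) → ℤ × ℤ // IsSAW n ω}

/-- `f` runs once around a simple cycle of `ℤ²` with `m` edges, from the origin. -/
def IsPolygon (m : ℕ) (f : ZMod m → ℤ × ℤ) : Prop :=
  f 0 = 0 ∧ Function.Injective f ∧
    ∀ i : ZMod m, |(f (i + 1)).1 - (f i).1| + |(f (i + 1)).2 - (f i).2| = 1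

/-- the number `p_{2n}` of self-avoiding polygons of perimeter `2n`, up to translation: a polygon
has `2n` possible starting points and `2` orientations. -/
noncomputable def p (n : ℕ) : ℝ :=
  (Nat.card {f : ZMod (2 * n) → ℤ × ℤ // IsPolygon (2 * n) f} : ℝ) / (4 * (n : ℝ))

lemma p_eq (n : ℕ) : p n = H981.PP n := rfl

lemma p_pos {n : ℕ} (hn : 2 ≤ n) : 0 < p n := Pool.Agent.H739K.PP_pos hn

/-- **Theorem.** Let `μ` be the connective constant of `ℤ²` and `p_{2n}` the number of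
self-avoiding polygons of perimeter `2n` up to translation.  (1) There is `K` with
`|p_{2n+2}/p_{2n} - μ²| ≤ K ((log n)^3 / n)^(1/2)` for all `n ≥ 2`.  (2) Let `s_k → ∞` be a sequence
of integers with `(s_{k+1} - s_k) ((log s_k)^3 / s_k)^(1/2) → 0`, let `θ` be real and `c > 0`.
If `p_{2n} μ^(-2n) n^θ → c` along `n = s_k`, then along all `n`. -/
theorem result : ∃ μ : ℝ, 0 < μ ∧
    Tendsto (fun n : ℕ => (C n : ℝ) ^ (1 / (n : ℝ))) atTop (𝓝 μ) ∧
    (∃ K : ℝ, ∀ n : ℕ, 2 ≤ n →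
      |p (n + 1) / p n - μ ^ 2| ≤ K * Real.sqrt (Real.log n ^ 3 / n)) ∧
    ∀ (s : ℕ → ℕ) (θ c : ℝ), Tendsto s atTop atTop →
      Tendsto (fun k => ((s (k + 1) : ℝ) - s k) * Real.sqrt (Real.log (s k) ^ 3 / s k))
        atTop (𝓝 0) →
      0 < c →
      Tendsto (fun k => p (s k) / μ ^ (2 * s k) * (s k : ℝ) ^ θ) atTop (𝓝 c) →
      Tendsto (fun n : ℕ => p n / μ ^ (2 * n) * (n : ℝ) ^ θ) atTop (𝓝 c) := by
  have hmu : 0 < H981.mu := H981.mu_pos
  refine ⟨H981.mu, hmu, ?_, Pool.Agent.W387.Q.f1, ?_⟩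
  · have h := H981.tendsto_root
    simp only [H981.cr'_eq] at h
    exact h
  · intro s θ c hs hgap hc0 hc
    have hpos : ∀ n : ℕ, 2 ≤ n → 0 < p n / H981.mu ^ (2 * n) := fun n hn =>
      div_pos (p_pos hn) (by positivity)
    obtain ⟨K, hK⟩ := Pool.Agent.W387.Q.f1
    have hr : ∃ K : ℝ, ∀ n, 2 ≤ n →
        |(p (n + 1) / H981.mu ^ (2 * (n + 1))) / (p n / H981.mu ^ (2 * n)) - 1| ≤
          K * Pool.Agent.W387.Q.rN n := by
      refine ⟨K / H981.mu ^ 2, fun n hn => ?_⟩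
      have hp := p_pos hn
      have h1 : |p (n + 1) / p n - H981.mu ^ 2| ≤ K * Pool.Agent.W387.Q.rN n := hK n hn
      have e : (p (n + 1) / H981.mu ^ (2 * (n + 1))) / (p n / H981.mu ^ (2 * n)) - 1 =
          (p (n + 1) / p n - H981.mu ^ 2) / H981.mu ^ 2 := by
        rw [show 2 * (n + 1) = 2 * n + 2 by ring, pow_add]
        field_simp
      rw [e, abs_div, abs_of_pos (show 0 < H981.mu ^ 2 by positivity), div_mul_eq_mul_div]
      exact div_le_div_of_nonneg_right h1 (by positivity)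
    obtain ⟨K', -, hK'⟩ := Pool.Agent.W387.Q.ratio_pow
      (fun n => p n / H981.mu ^ (2 * n)) hpos hr θ
    refine Pool.Agent.W387.Q.mul_gen (fun n => p n / H981.mu ^ (2 * n) * (n : ℝ) ^ θ) K' ?_ hK'
      s hs hgap c hc0 hc
    intro n hn
    have hn0 : (0 : ℝ) < n := by exact_mod_cast (by omega : 0 < n)
    exact mul_pos (hpos n hn) (Real.rpow_pos_of_pos hn0 θ)

end Pool.Agent.Results.MP_376faf_co.RatioRateLogThree
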